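import Mathlib

/-!
The anisotropic Brezis-Nirenberg problem `-div(a ∇u) = λ b u + c |u|^(2*-2) u`: although every
minimum point of `f = a^(n/2) / c^((n-2)/2)` lies on the boundary and is not stationary for `f`, the
threshold `λ_{0,*}` may be negative (as negative as one likes).
-/

set_option autoImplicit false

open MeasureTheory Set Filter Topology
open scoped ContDiff ENNReal NNReal

namespace Pool.Agent.Results.MP_6822f0_an.InteriorGroundState

/-- The space `ℝ^n`. -/
abbrev E (n : ℕ) := EuclideanSpace ℝ (Fin n)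

/-- The critical exponent `2* = 2n / (n - 2)`. -/
noncomputable def crit (n : ℕ) : ℝ := 2 * n / (n - 2)

/-- The test functions of `Θ`: smooth, with compact support contained in `Θ`. -/
def IsTest {n : ℕ} (Θ : Set (E n)) (φ : E n → ℝ) : Prop :=
  ContDiff ℝ ∞ φ ∧ HasCompactSupport φ ∧ tsupport φ ⊆ Θ

/-- `u ∈ H¹₀(Θ)`, with weak gradient `G`: the limit in `H¹` of test functions of `Θ`. -/
def IsH10 {n : ℕ} (Θ : Set (E n)) (u : E n → ℝ) (G : E n → E n) : Prop :=
  MemLp u 2 volume ∧ MemLp G 2 volume ∧ ∃ φ : ℕ → E n → ℝ, (∀ k, IsTest Θ (φ k)) ∧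
    Tendsto (fun k => eLpNorm (φ k - u) 2 volume) atTop (𝓝 0) ∧
    Tendsto (fun k => eLpNorm (gradient (φ k) - G) 2 volume) atTop (𝓝 0)

/-- The energy `J_λ(u)` of `u ∈ H¹₀(Θ)` with gradient `G`. -/
noncomputable def J {n : ℕ} (Θ : Set (E n)) (a b c : E n → ℝ) (lam : ℝ) (u : E n → ℝ)
    (G : E n → E n) : ℝ :=
  1 / 2 * (∫ x in Θ, a x * ‖G x‖ ^ 2) - lam / 2 * (∫ x in Θ, b x * u x ^ 2)
    - 1 / crit n * ∫ x in Θ, c x * |u x| ^ crit n

/-- The derivative `J_λ'(u) u`. -/
noncomputable def dJ {n : ℕ} (Θ : Set (E n)) (a b c : E n → ℝ) (lam : ℝ) (u : E n → ℝ)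
    (G : E n → E n) : ℝ :=
  (∫ x in Θ, a x * ‖G x‖ ^ 2) - lam * (∫ x in Θ, b x * u x ^ 2)
    - ∫ x in Θ, c x * |u x| ^ crit n

/-- The Nehari manifold: `u ∈ H¹₀(Θ)`, `u ≠ 0` and `J_λ'(u) u = 0`. -/
def Nehari {n : ℕ} (Θ : Set (E n)) (a b c : E n → ℝ) (lam : ℝ) :
    Set ((E n → ℝ) × (E n → E n)) :=
  {p | IsH10 Θ p.1 p.2 ∧ ¬ p.1 =ᵐ[volume] 0 ∧ dJ Θ a b c lam p.1 p.2 = 0}

/-- The ground-state level `ℓ_λ`. -/
noncomputable def level {n : ℕ} (Θ : Set (E n)) (a b c : E n → ℝ) (lam : ℝ) : ℝ :=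
  sInf ((fun p : (E n → ℝ) × (E n → E n) => J Θ a b c lam p.1 p.2) '' Nehari Θ a b c lam)

/-- The first eigenvalue `λ₁` of `-div(a ∇u) = λ b u` with Dirichlet conditions (the infimum of the
Rayleigh quotients). -/
noncomputable def lambda1 {n : ℕ} (Θ : Set (E n)) (a b : E n → ℝ) : ℝ :=
  sInf {r | ∃ (u : E n → ℝ) (G : E n → E n), IsH10 Θ u G ∧ ¬ u =ᵐ[volume] 0 ∧
    r = (∫ x in Θ, a x * ‖G x‖ ^ 2) / ∫ x in Θ, b x * u x ^ 2}

/-- The best Sobolev constant `S` of `ℝ^n`: the largest `s` with `s ‖φ‖_{2*}² ≤ ‖∇φ‖_2²`. -/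
noncomputable def sob (n : ℕ) : ℝ :=
  sSup {s | ∀ φ : E n → ℝ, IsTest univ φ →
    s * (∫ x, |φ x| ^ crit n) ^ (2 / crit n) ≤ ∫ x, ‖gradient φ x‖ ^ 2}

/-- The function `f = a^(n/2) / c^((n-2)/2)`. -/
noncomputable def ff {n : ℕ} (a c : E n → ℝ) (x : E n) : ℝ :=
  a x ^ ((n : ℝ) / 2) / c x ^ (((n : ℝ) - 2) / 2)

/-- The level `κ = (min f) S^(n/2) / n`. -/
noncomputable def kappa {n : ℕ} (Θ : Set (E n)) (a c : E n → ℝ) : ℝ :=
  sInf (ff a c '' closure Θ) * (1 / n * sob n ^ ((n : ℝ) / 2))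

/-- The threshold `λ_{0,*} = inf {λ < λ₁ : ℓ_λ < κ}` (in the extended reals). -/
noncomputable def lamStar {n : ℕ} (Θ : Set (E n)) (a b c : E n → ℝ) : EReal :=
  sInf ((fun r : ℝ => (r : EReal)) ''
    {lam : ℝ | lam < lambda1 Θ a b ∧ level Θ a b c lam < kappa Θ a c})

/-! ### the Sobolev constant -/

theorem crit_gt {n : ℕ} (hn : 3 ≤ n) : 2 < crit n := by
  have h : (3 : ℝ) ≤ n := by exact_mod_cast hn
  unfold crit
  rw [lt_div_iff₀ (by linarith)]
  linarith

theorem grad_norm {n : ℕ} (φ : E n → ℝ) (x : E n) : ‖gradient φ x‖ = ‖fderiv ℝ φ x‖ := by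
  unfold gradient
  exact LinearIsometryEquiv.norm_map _ _

theorem cont_grad {n : ℕ} {φ : E n → ℝ} (h : ContDiff ℝ ∞ φ) : Continuous (gradient φ) := by
  unfold gradient
  exact (InnerProductSpace.toDual ℝ (E n)).symm.continuous.comp (h.continuous_fderiv (by simp))

theorem grad_supp {n : ℕ} {φ : E n → ℝ} (h : HasCompactSupport φ) :
    HasCompactSupport (gradient φ) := by
  have h1 := h.fderiv (𝕜 := ℝ)
  refine h1.comp_left (g := (InnerProductSpace.toDual ℝ (E n)).symm) ?_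
  simp

theorem sobolev {n : ℕ} (hn : 3 ≤ n) : ∃ s : ℝ, 0 < s ∧ ∀ φ : E n → ℝ, IsTest univ φ →
    s * (∫ x, |φ x| ^ crit n) ^ (2 / crit n) ≤ ∫ x, ‖gradient φ x‖ ^ 2 := by
  have hq := crit_gt hn
  have hn' : (3 : ℝ) ≤ n := by exact_mod_cast hn
  obtain ⟨p', hp'⟩ : ∃ p' : ℝ≥0, (p' : ℝ) = crit n := ⟨⟨crit n, by linarith⟩, rfl⟩
  set C := SNormLESNormFDerivOfEqConst ℝ (volume : Measure (E n)) (2 : ℝ≥0) with hC
  refine ⟨1 / ((C : ℝ) ^ 2 + 1), by positivity, fun φ hφ => ?_⟩
  have h1 := eLpNorm_le_eLpNorm_fderiv_of_eq (volume : Measure (E n)) (u := φ) (p := 2) (p' := p')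
    (hφ.1.of_le (by simp)) hφ.2.1 (by norm_num)
    (by rw [finrank_euclideanSpace_fin]; omega) (by
      rw [finrank_euclideanSpace_fin]
      rw [hp', crit]
      have h2 : (n : ℝ) - 2 ≠ 0 := by linarith
      have h3 : (n : ℝ) ≠ 0 := by linarith
      push_cast
      field_simp)
  have m1 : MemLp φ (p' : ℝ≥0∞) volume := hφ.1.continuous.memLp_of_hasCompactSupport hφ.2.1
  have m2 : MemLp (fderiv ℝ φ) ((2 : ℝ≥0) : ℝ≥0∞) volume :=
    (hφ.1.continuous_fderiv (by simp)).memLp_of_hasCompactSupport (hφ.2.1.fderiv (𝕜 := ℝ))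
  have hp0 : (p' : ℝ≥0∞) ≠ 0 := by
    simp only [ne_eq, ENNReal.coe_eq_zero]
    intro h
    have : (p' : ℝ) = 0 := by rw [h]; rfl
    linarith
  rw [m1.eLpNorm_eq_integral_rpow_norm hp0 ENNReal.coe_ne_top,
    m2.eLpNorm_eq_integral_rpow_norm (by norm_num) ENNReal.coe_ne_top] at h1
  have hI : 0 ≤ ∫ x, |φ x| ^ crit n := integral_nonneg fun x => by positivity
  have hD : 0 ≤ ∫ x, ‖gradient φ x‖ ^ 2 := integral_nonneg fun x => by positivity
  have e1 : (∫ x, ‖φ x‖ ^ ((p' : ℝ≥0∞)).toReal) = ∫ x, |φ x| ^ crit n := by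
    simp only [ENNReal.coe_toReal, hp', Real.norm_eq_abs]
  have e2 : (∫ x, ‖fderiv ℝ φ x‖ ^ (((2 : ℝ≥0) : ℝ≥0∞)).toReal) = ∫ x, ‖gradient φ x‖ ^ 2 := by
    refine integral_congr_ae (Eventually.of_forall fun x => ?_)
    simp only [ENNReal.coe_toReal, NNReal.coe_ofNat, grad_norm]
    norm_num
  rw [e1, e2] at h1
  have e3 : ((p' : ℝ≥0∞)).toReal = crit n := by rw [ENNReal.coe_toReal, hp']
  have e4 : (((2 : ℝ≥0) : ℝ≥0∞)).toReal = 2 := by simp
  rw [e3, e4, ← ENNReal.ofReal_coe_nnreal (p := C), ← ENNReal.ofReal_mul (by positivity),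
    ENNReal.ofReal_le_ofReal_iff (by positivity)] at h1
  set I := ∫ x, |φ x| ^ crit n
  set D := ∫ x, ‖gradient φ x‖ ^ 2
  have h3 : I ^ (2 / crit n) = (I ^ (crit n)⁻¹) ^ 2 := by
    rw [← Real.rpow_natCast (I ^ (crit n)⁻¹) 2, ← Real.rpow_mul hI]
    congr 1
    push_cast
    field_simp
  have h4 : D = (D ^ (2 : ℝ)⁻¹) ^ 2 := by
    rw [← Real.rpow_natCast (D ^ (2 : ℝ)⁻¹) 2, ← Real.rpow_mul hD]
    norm_num
  have h5 : (I ^ (crit n)⁻¹) ^ 2 ≤ (C : ℝ) ^ 2 * D := by
    calc (I ^ (crit n)⁻¹) ^ 2 ≤ (C * D ^ (2 : ℝ)⁻¹) ^ 2 := by gcongr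
      _ = (C : ℝ) ^ 2 * (D ^ (2 : ℝ)⁻¹) ^ 2 := by ring
      _ = _ := by rw [← h4]
  rw [h3, one_div, inv_mul_le_iff₀ (by positivity)]
  nlinarith

/-- the cut-off function, equal to `1` on the ball of radius `r` and supported in the one of
radius `R` -/
noncomputable def cut (n : ℕ) (r R : ℝ) (h0 : 0 < r) (h1 : r < R) : ContDiffBump (0 : E n) :=
  ⟨r, R, h0, h1⟩

theorem sob_pos {n : ℕ} (hn : 3 ≤ n) : 0 < sob n := by
  obtain ⟨s, s0, hs⟩ := sobolev hn
  refine s0.trans_le (le_csSup ?_ hs)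
  set g := cut n 1 2 (by norm_num) (by norm_num) with hg
  have hq := crit_gt hn
  have hpos : 0 < ∫ x, |g x| ^ crit n := by
    rw [integral_pos_iff_support_of_nonneg (fun x => by positivity)]
    · refine lt_of_lt_of_le (Metric.measure_ball_pos volume (0 : E n) (r := 1) (by norm_num))
        (measure_mono fun x hx => ?_)
      have : g x = 1 := g.one_of_mem_closedBall (Metric.ball_subset_closedBall hx)
      simp [this]
    · refine Continuous.integrable_of_hasCompactSupport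
        (g.continuous.abs.rpow_const fun x => Or.inr (by linarith)) ?_
      refine g.hasCompactSupport.comp_left (g := fun t => |t| ^ crit n) ?_
      simp only [abs_zero]
      exact Real.zero_rpow (by linarith)
  refine ⟨(∫ x, ‖gradient (fun x => g x) x‖ ^ 2) / (∫ x, |g x| ^ crit n) ^ (2 / crit n), ?_⟩
  intro s' hs'
  rw [le_div_iff₀ (Real.rpow_pos_of_pos hpos _)]
  exact hs' _ ⟨g.contDiff, g.hasCompactSupport, subset_univ _⟩

/-! ### the data -/

/-- the first coordinate -/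
def i0 {n : ℕ} (hn : 3 ≤ n) : Fin n := ⟨0, by omega⟩

/-- the interior weight: `M` on the ball of radius `1 / 2`, `1` outside of the unit ball -/
noncomputable def wt (n : ℕ) (M : ℝ) (x : E n) : ℝ :=
  1 + (M - 1) * cut n (1 / 2) 1 (by norm_num) (by norm_num) x

/-- the coefficient `a` -/
noncomputable def aa {n : ℕ} (hn : 3 ≤ n) (M : ℝ) (x : E n) : ℝ :=
  wt n M x ^ 2 * (4 + x (i0 hn))

/-- the coefficient `c` -/
noncomputable def cc (n : ℕ) (M : ℝ) (x : E n) : ℝ := wt n M x ^ crit n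

/-- the trial function -/
noncomputable def tri (n : ℕ) (x : E n) : ℝ := cut n 1 2 (by norm_num) (by norm_num) x

theorem wt_smooth (n : ℕ) (M : ℝ) : ContDiff ℝ ∞ (wt n M) := by
  unfold wt
  exact contDiff_const.add (contDiff_const.mul (ContDiffBump.contDiff _))

theorem wt_ge {n : ℕ} {M : ℝ} (hM : 1 ≤ M) (x : E n) : 1 ≤ wt n M x := by
  unfold wt
  have h := (cut n (1 / 2) 1 (by norm_num) (by norm_num)).nonneg (x := x)
  nlinarith

theorem wt_out {n : ℕ} {M : ℝ} {x : E n} (hx : 1 ≤ ‖x‖) : wt n M x = 1 := by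
  unfold wt
  rw [ContDiffBump.zero_of_le_dist]
  · ring
  · simpa [cut] using hx

theorem wt_in {n : ℕ} {M : ℝ} {x : E n} (hx : ‖x‖ ≤ 1 / 2) : wt n M x = M := by
  unfold wt
  rw [ContDiffBump.one_of_mem_closedBall]
  · ring
  · simpa [cut] using hx

theorem tri_smooth (n : ℕ) : ContDiff ℝ ∞ (tri n) := ContDiffBump.contDiff _

theorem tri_supp (n : ℕ) : HasCompactSupport (tri n) := ContDiffBump.hasCompactSupport _

theorem tri_test (n : ℕ) : IsTest (Metric.ball (0 : E n) 3) (tri n) := by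
  refine ⟨tri_smooth n, tri_supp n, ?_⟩
  have h : tsupport (tri n) = Metric.closedBall (0 : E n) 2 := ContDiffBump.tsupport_eq _
  rw [h]
  exact Metric.closedBall_subset_ball (by norm_num)

theorem tri_one {n : ℕ} {x : E n} (hx : ‖x‖ ≤ 1) : tri n x = 1 := by
  unfold tri
  rw [ContDiffBump.one_of_mem_closedBall]
  simpa [cut] using hx

theorem tri_nonneg {n : ℕ} (x : E n) : 0 ≤ tri n x := ContDiffBump.nonneg _

theorem tri_grad {n : ℕ} {x : E n} (hx : ‖x‖ < 1) : gradient (tri n) x = 0 := by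
  have h : tri n =ᶠ[𝓝 x] fun _ => 1 := by
    have : Metric.ball (0 : E n) 1 ∈ 𝓝 x := Metric.isOpen_ball.mem_nhds (by simpa using hx)
    filter_upwards [this] with y hy
    exact tri_one (by simpa using (Metric.mem_ball.mp hy).le)
  unfold gradient
  rw [h.fderiv_eq]
  simp

theorem crd {n : ℕ} (hn : 3 ≤ n) (x : E n) : |x (i0 hn)| ≤ ‖x‖ := by
  have := PiLp.norm_apply_le x (i0 hn)
  simpa using this

theorem aa_tri {n : ℕ} (hn : 3 ≤ n) (M : ℝ) (x : E n) : aa hn M x * ‖gradient (tri n) x‖ ^ 2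
    = (4 + x (i0 hn)) * ‖gradient (tri n) x‖ ^ 2 := by
  by_cases hx : ‖x‖ < 1
  · rw [tri_grad hx]
    simp
  · unfold aa
    rw [wt_out (not_lt.mp hx)]
    ring

theorem smul_grad {n : ℕ} (t : ℝ) (x : E n) :
    ‖gradient (fun y => t * tri n y) x‖ ^ 2 = t ^ 2 * ‖gradient (tri n) x‖ ^ 2 := by
  rw [grad_norm, grad_norm, fderiv_const_mul ((tri_smooth n).differentiable (by simp) x),
    norm_smul, mul_pow, Real.norm_eq_abs, sq_abs]

theorem smul_test {n : ℕ} (t : ℝ) : IsTest (Metric.ball (0 : E n) 3) (fun y => t * tri n y) := by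
  obtain ⟨h1, h2, h3⟩ := tri_test n
  refine ⟨contDiff_const.mul h1, h2.mul_left, ?_⟩
  exact (closure_mono (Function.support_mul_subset_right _ _)).trans h3

theorem smul_h10 {n : ℕ} (t : ℝ) : IsH10 (Metric.ball (0 : E n) 3) (fun y => t * tri n y)
    (gradient fun y => t * tri n y) := by
  have h := smul_test (n := n) t
  refine ⟨h.1.continuous.memLp_of_hasCompactSupport h.2.1,
    (cont_grad h.1).memLp_of_hasCompactSupport (grad_supp h.2.1),
    fun _ => fun y => t * tri n y, fun _ => h, ?_, ?_⟩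
  · simp
  · simp

theorem smul_ne {n : ℕ} {t : ℝ} (ht : 0 < t) :
    ¬ (fun y => t * tri n y) =ᵐ[volume] (0 : E n → ℝ) := by
  intro h
  have h1 : volume (Metric.ball (0 : E n) 1) = 0 := by
    refine measure_mono_null (fun x hx => ?_) h
    show ¬ (t * tri n x = 0)
    rw [tri_one (by simpa using (Metric.mem_ball.mp hx).le)]
    simpa using ht.ne'
  exact (Metric.measure_ball_pos volume (0 : E n) (r := 1) (by norm_num)).ne' h1

/-- the integral of `c |φ|^(2*)` -/
noncomputable def CI (n : ℕ) (M : ℝ) : ℝ :=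
  ∫ x in Metric.ball (0 : E n) 3, cc n M x * |tri n x| ^ crit n

theorem CI_ge {n : ℕ} (hn : 3 ≤ n) {M : ℝ} (hM : 1 ≤ M) :
    M ^ crit n * volume.real (Metric.ball (0 : E n) (1 / 2)) ≤ CI n M := by
  have hq := crit_gt hn
  have hc : Continuous fun x : E n => cc n M x * |tri n x| ^ crit n := by
    unfold cc
    exact ((wt_smooth n M).continuous.rpow_const fun x => Or.inr (by linarith)).mul
      ((tri_smooth n).continuous.abs.rpow_const fun x => Or.inr (by linarith))
  have hi : Integrable fun x : E n => cc n M x * |tri n x| ^ crit n := by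
    refine hc.integrable_of_hasCompactSupport ?_
    refine HasCompactSupport.mul_left ?_
    refine (tri_supp n).comp_left (g := fun t => |t| ^ crit n) ?_
    simp only [abs_zero]
    exact Real.zero_rpow (by linarith)
  have hnn : ∀ x : E n, 0 ≤ cc n M x * |tri n x| ^ crit n := fun x => by
    have : 0 ≤ cc n M x := Real.rpow_nonneg (by linarith [wt_ge hM x]) _
    positivity
  have h1 : ∫ x in Metric.ball (0 : E n) (1 / 2), cc n M x * |tri n x| ^ crit n
      = M ^ crit n * volume.real (Metric.ball (0 : E n) (1 / 2)) := by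
    have h2 : ∀ x ∈ Metric.ball (0 : E n) (1 / 2), cc n M x * |tri n x| ^ crit n = M ^ crit n := by
      intro x hx
      have hx' : ‖x‖ < 1 / 2 := by simpa using hx
      unfold cc
      rw [wt_in hx'.le, tri_one (by linarith)]
      simp
    rw [setIntegral_congr_fun Metric.isOpen_ball.measurableSet h2, setIntegral_const, smul_eq_mul,
      mul_comm]
  rw [← h1]
  exact setIntegral_mono_set hi.integrableOn (Eventually.of_forall hnn)
    (Metric.ball_subset_ball (by norm_num)).eventuallyLE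

theorem J_ge {n : ℕ} (hn : 3 ≤ n) {Θ : Set (E n)} (hΘ : MeasurableSet Θ) {a b c : E n → ℝ}
    (hc : ∀ x ∈ Θ, 0 ≤ c x) (lam : ℝ) :
    BddBelow ((fun p : (E n → ℝ) × (E n → E n) => J Θ a b c lam p.1 p.2) '' Nehari Θ a b c lam) := by
  have hq := crit_gt hn
  refine ⟨0, ?_⟩
  rintro _ ⟨⟨u, G⟩, ⟨_, _, h⟩, rfl⟩
  have h1 : 0 ≤ ∫ x in Θ, c x * |u x| ^ crit n :=
    setIntegral_nonneg hΘ fun x hx => mul_nonneg (hc x hx) (Real.rpow_nonneg (abs_nonneg _) _)
  simp only [dJ] at h
  simp only [J]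
  have h2 : 1 / crit n ≤ 1 / 2 := one_div_le_one_div_of_le (by norm_num) hq.le
  nlinarith

theorem level_le_J {n : ℕ} (hn : 3 ≤ n) {Θ : Set (E n)} (hΘ : MeasurableSet Θ)
    {a b c : E n → ℝ} (hc : ∀ x ∈ Θ, 0 ≤ c x) {lam : ℝ} {u : E n → ℝ} {G : E n → E n}
    (h : (u, G) ∈ Nehari Θ a b c lam) : level Θ a b c lam ≤ J Θ a b c lam u G :=
  csInf_le (J_ge hn hΘ hc lam) ⟨(u, G), h, rfl⟩

theorem vpos (n : ℕ) : 0 < volume.real (Metric.ball (0 : E n) (1 / 2)) :=
  ENNReal.toReal_pos (Metric.measure_ball_pos volume (0 : E n) (by norm_num)).ne'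
    measure_ball_lt_top.ne

theorem level_le {n : ℕ} (hn : 3 ≤ n) {M lam : ℝ} (hM : 1 ≤ M) (hlam : lam < 0) :
    level (Metric.ball (0 : E n) 3) (aa hn M) (fun _ => 1) (cc n M) lam ≤
      (1 / 2 - 1 / crit n) *
      (((∫ x in Metric.ball (0 : E n) 3, (4 + x (i0 hn)) * ‖gradient (tri n) x‖ ^ 2)
        - lam * ∫ x in Metric.ball (0 : E n) 3, tri n x ^ 2) *
      ((((∫ x in Metric.ball (0 : E n) 3, (4 + x (i0 hn)) * ‖gradient (tri n) x‖ ^ 2)
        - lam * ∫ x in Metric.ball (0 : E n) 3, tri n x ^ 2) / CI n M)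
          ^ (1 / (crit n - 2))) ^ 2) := by
  have hq := crit_gt hn
  set A := ∫ x in Metric.ball (0 : E n) 3, (4 + x (i0 hn)) * ‖gradient (tri n) x‖ ^ 2 with hA
  set B := ∫ x in Metric.ball (0 : E n) 3, tri n x ^ 2 with hB
  have hA0 : 0 ≤ A := by
    refine setIntegral_nonneg Metric.isOpen_ball.measurableSet fun x hx => ?_
    have h1 := crd hn x
    have h2 : ‖x‖ < 3 := by simpa using hx
    have h3 := neg_abs_le (x (i0 hn))
    exact mul_nonneg (by linarith) (by positivity)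
  have hv := vpos n
  have hB0 : 0 < B := by
    have hi : Integrable fun x : E n => tri n x ^ 2 := by
      refine ((tri_smooth n).continuous.pow 2).integrable_of_hasCompactSupport ?_
      exact (tri_supp n).comp_left (g := fun t => t ^ 2) (by norm_num)
    have h1 : ∫ x in Metric.ball (0 : E n) (1 / 2), tri n x ^ 2
        = volume.real (Metric.ball (0 : E n) (1 / 2)) := by
      have h2 : ∀ x ∈ Metric.ball (0 : E n) (1 / 2), tri n x ^ 2 = 1 := by
        intro x hx
        have hx' : ‖x‖ < 1 / 2 := by simpa using hx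
        rw [tri_one (by linarith)]
        norm_num
      rw [setIntegral_congr_fun Metric.isOpen_ball.measurableSet h2, setIntegral_const,
        smul_eq_mul, mul_one]
    refine hv.trans_le ?_
    rw [← h1]
    exact setIntegral_mono_set hi.integrableOn (Eventually.of_forall fun x => by positivity)
      (Metric.ball_subset_ball (by norm_num)).eventuallyLE
  have hC0 : 0 < CI n M :=
    lt_of_lt_of_le (mul_pos (Real.rpow_pos_of_pos (by linarith) _) hv) (CI_ge hn hM)
  set K := A - lam * B with hK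
  have hK0 : 0 < K := by nlinarith
  set t := (K / CI n M) ^ (1 / (crit n - 2)) with ht
  have ht0 : 0 < t := Real.rpow_pos_of_pos (div_pos hK0 hC0) _
  have hq2 : crit n - 2 ≠ 0 := by linarith
  have ht1 : t ^ crit n * CI n M = t ^ 2 * K := by
    have h1 : t ^ (crit n - 2) = K / CI n M := by
      rw [ht, ← Real.rpow_mul (div_pos hK0 hC0).le, one_div_mul_cancel hq2, Real.rpow_one]
    have h2 : t ^ crit n = t ^ (crit n - 2) * t ^ 2 := by
      rw [← Real.rpow_natCast t 2, ← Real.rpow_add ht0]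
      norm_num
    rw [h2, h1]
    field_simp
  have i1 : ∫ x in Metric.ball (0 : E n) 3, aa hn M x * ‖gradient (fun y => t * tri n y) x‖ ^ 2
      = t ^ 2 * A := by
    rw [hA, ← integral_const_mul]
    refine integral_congr_ae (Eventually.of_forall fun x => ?_)
    simp only
    rw [smul_grad, mul_left_comm, aa_tri]
  have i2 : ∫ x in Metric.ball (0 : E n) 3, (1 : ℝ) * (t * tri n x) ^ 2 = t ^ 2 * B := by
    rw [hB, ← integral_const_mul]
    refine integral_congr_ae (Eventually.of_forall fun x => ?_)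
    simp only
    ring
  have i3 : ∫ x in Metric.ball (0 : E n) 3, cc n M x * |t * tri n x| ^ crit n
      = t ^ crit n * CI n M := by
    unfold CI
    rw [← integral_const_mul]
    refine integral_congr_ae (Eventually.of_forall fun x => ?_)
    simp only
    rw [abs_mul, abs_of_pos ht0, Real.mul_rpow ht0.le (abs_nonneg _)]
    ring
  have hN : ((fun y => t * tri n y), gradient fun y => t * tri n y) ∈
      Nehari (Metric.ball (0 : E n) 3) (aa hn M) (fun _ => 1) (cc n M) lam := by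
    refine ⟨smul_h10 t, smul_ne ht0, ?_⟩
    show dJ _ _ _ _ _ _ _ = 0
    unfold dJ
    rw [i1, i2, i3, ht1, hK]
    ring
  have hcn : ∀ x ∈ Metric.ball (0 : E n) 3, 0 ≤ cc n M x :=
    fun x _ => Real.rpow_nonneg (by linarith [wt_ge hM x]) _
  have hle := level_le_J hn Metric.isOpen_ball.measurableSet hcn hN
  refine hle.trans (le_of_eq ?_)
  unfold J
  rw [i1, i2, i3, ht1, hK]
  ring

theorem small {n : ℕ} (hn : 3 ≤ n) {lam : ℝ} (hlam : lam < 0) {κ : ℝ} (hκ : 0 < κ) :
    ∃ M : ℝ, 1 ≤ M ∧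
      level (Metric.ball (0 : E n) 3) (aa hn M) (fun _ => 1) (cc n M) lam < κ := by
  have hq := crit_gt hn
  set A := ∫ x in Metric.ball (0 : E n) 3, (4 + x (i0 hn)) * ‖gradient (tri n) x‖ ^ 2 with hA
  set B := ∫ x in Metric.ball (0 : E n) 3, tri n x ^ 2 with hB
  have hv := vpos n
  have hA0 : 0 ≤ A := by
    refine setIntegral_nonneg Metric.isOpen_ball.measurableSet fun x hx => ?_
    have h1 := crd hn x
    have h2 : ‖x‖ < 3 := by simpa using hx
    have h3 := neg_abs_le (x (i0 hn))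
    exact mul_nonneg (by linarith) (by positivity)
  have hB0 : 0 ≤ B := setIntegral_nonneg Metric.isOpen_ball.measurableSet fun x _ => by positivity
  have hK0 : 0 ≤ A - lam * B := by nlinarith
  have hC : Tendsto (fun M : ℝ => CI n M) atTop atTop := by
    have h1 : Tendsto (fun M : ℝ => M ^ crit n * volume.real (Metric.ball (0 : E n) (1 / 2)))
        atTop atTop := (tendsto_rpow_atTop (by linarith)).atTop_mul_const hv
    refine tendsto_atTop_mono' _ ?_ h1
    filter_upwards [eventually_ge_atTop 1] with M hM using CI_ge hn hM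
  have h2 : Tendsto (fun M : ℝ => (1 / 2 - 1 / crit n) * ((A - lam * B) *
      (((A - lam * B) / CI n M) ^ (1 / (crit n - 2))) ^ 2)) atTop
      (𝓝 ((1 / 2 - 1 / crit n) * ((A - lam * B) * ((0 : ℝ) ^ (1 / (crit n - 2))) ^ 2))) := by
    refine Tendsto.const_mul _ (Tendsto.const_mul _ (Tendsto.pow ?_ 2))
    refine Tendsto.rpow_const (tendsto_const_nhds.div_atTop hC) (Or.inr ?_)
    exact div_nonneg zero_le_one (by linarith)
  have h3 : (0 : ℝ) ^ (1 / (crit n - 2)) = 0 := Real.zero_rpow (by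
    have : 0 < crit n - 2 := by linarith
    positivity)
  rw [h3] at h2
  norm_num at h2
  have h4 := (h2.eventually (gt_mem_nhds hκ)).and (eventually_ge_atTop 1)
  obtain ⟨M, h5, h6⟩ := h4.exists
  refine ⟨M, h6, (level_le hn h6 hlam).trans_lt ?_⟩
  norm_num
  exact h5

theorem ff_eq {n : ℕ} (hn : 3 ≤ n) {M : ℝ} (hM : 1 ≤ M) {x : E n} (hx : 0 < 4 + x (i0 hn)) :
    ff (aa hn M) (cc n M) x = (4 + x (i0 hn)) ^ ((n : ℝ) / 2) := by
  have h : (3 : ℝ) ≤ n := by exact_mod_cast hn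
  have hw : 0 < wt n M x := by linarith [wt_ge hM x]
  have h2 : (n : ℝ) - 2 ≠ 0 := by linarith
  unfold ff aa cc
  rw [Real.mul_rpow (by positivity) hx.le, ← Real.rpow_natCast (wt n M x) 2,
    ← Real.rpow_mul hw.le, ← Real.rpow_mul hw.le]
  have e1 : ((2 : ℕ) : ℝ) * ((n : ℝ) / 2) = n := by push_cast; ring
  have e2 : crit n * (((n : ℝ) - 2) / 2) = n := by
    unfold crit
    field_simp
  rw [e1, e2]
  field_simp

/-- For every `n ≥ 3` and every `L` there are coefficients `a`, `b`, `c` on the ball `Θ` of radius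
`3` (smooth and positive on the closure) for which every minimum point of `f = a^(n/2)/c^((n-2)/2)`
on the closure lies on the boundary and is not stationary for `f`, whereas `λ_{0,*} ≤ L`. -/
theorem result : ∀ n : ℕ, 3 ≤ n → ∀ L : ℝ, ∃ a b c : E n → ℝ,
    ContDiff ℝ ∞ a ∧ ContDiff ℝ ∞ b ∧ ContDiff ℝ ∞ c ∧
    (∀ x ∈ closure (Metric.ball (0 : E n) 3), 0 < a x ∧ 0 < b x ∧ 0 < c x) ∧
    (∀ x ∈ closure (Metric.ball (0 : E n) 3),
      (∀ y ∈ closure (Metric.ball (0 : E n) 3), ff a c x ≤ ff a c y) →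
        x ∈ frontier (Metric.ball (0 : E n) 3) ∧ DifferentiableAt ℝ (ff a c) x ∧
          gradient (ff a c) x ≠ 0) ∧
    lamStar (Metric.ball (0 : E n) 3) a b c ≤ (L : EReal) := by
  intro n hn L
  have h3n : (3 : ℝ) ≤ n := by exact_mod_cast hn
  have hcl : closure (Metric.ball (0 : E n) 3) = Metric.closedBall (0 : E n) 3 :=
    closure_ball _ (by norm_num)
  have hfr : frontier (Metric.ball (0 : E n) 3) = Metric.sphere (0 : E n) 3 :=
    frontier_ball _ (by norm_num)
  set lam : ℝ := -(|L| + 1) with hlam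
  have hlam0 : lam < 0 := by
    have := abs_nonneg L
    linarith
  have hlamL : lam ≤ L := by
    have := neg_abs_le L
    linarith
  have hκ0 : 0 < 1 / (n : ℝ) * sob n ^ ((n : ℝ) / 2) :=
    mul_pos (by positivity) (Real.rpow_pos_of_pos (sob_pos hn) _)
  obtain ⟨M, hM, hlev⟩ := small hn hlam0 hκ0
  have hpos : ∀ x ∈ Metric.closedBall (0 : E n) 3, 1 ≤ 4 + x (i0 hn) := by
    intro x hx
    have h1 := crd hn x
    have h2 : ‖x‖ ≤ 3 := by simpa using hx
    have h3 := neg_abs_le (x (i0 hn))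
    linarith
  have hwp : ∀ x : E n, 0 < wt n M x := fun x => by linarith [wt_ge hM x]
  have hlin : ContDiff ℝ ∞ fun x : E n => x (i0 hn) :=
    (EuclideanSpace.proj (𝕜 := ℝ) (i0 hn)).contDiff
  -- the minimum point
  set z : E n := EuclideanSpace.single (i0 hn) (-3) with hz
  have hz0 : z (i0 hn) = -3 := by simp [hz]
  have hzm : z ∈ Metric.closedBall (0 : E n) 3 := by
    simp [hz]
  refine ⟨aa hn M, fun _ => 1, cc n M, ?_, contDiff_const, ?_, ?_, ?_, ?_⟩
  · unfold aa
    exact ((wt_smooth n M).pow 2).mul (contDiff_const.add hlin)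
  · unfold cc
    exact (wt_smooth n M).rpow_const_of_ne fun x => (hwp x).ne'
  · intro x hx
    rw [hcl] at hx
    refine ⟨mul_pos (pow_pos (hwp x) 2) (by linarith [hpos x hx]), one_pos,
      Real.rpow_pos_of_pos (hwp x) _⟩
  · intro x hx hmin
    rw [hcl] at hx hmin
    have h1 := hmin z hzm
    rw [ff_eq hn hM (by linarith [hpos x hx]), ff_eq hn hM (by linarith [hpos z hzm]), hz0] at h1
    norm_num at h1
    have h2 : 4 + x (i0 hn) ≤ 1 := by
      by_contra hcon
      push Not at hcon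
      have := Real.one_lt_rpow hcon (z := (n : ℝ) / 2) (by positivity)
      linarith
    have h4 := crd hn x
    have h5 := neg_abs_le (x (i0 hn))
    have h6 : ‖x‖ ≤ 3 := by simpa using hx
    have hev : ff (aa hn M) (cc n M) =ᶠ[𝓝 x] fun y => (4 + y (i0 hn)) ^ ((n : ℝ) / 2) := by
      have ho : IsOpen {y : E n | 0 < 4 + y (i0 hn)} :=
        isOpen_lt continuous_const (continuous_const.add hlin.continuous)
      filter_upwards [ho.mem_nhds (show 0 < 4 + x (i0 hn) by linarith [hpos x hx])] with y hy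
      exact ff_eq hn hM hy
    have hx1 : 4 + x (i0 hn) = 1 := le_antisymm h2 (hpos x hx)
    have hd : HasFDerivAt (fun y : E n => (4 + y (i0 hn)) ^ ((n : ℝ) / 2))
        (((n : ℝ) / 2 * (4 + x (i0 hn)) ^ ((n : ℝ) / 2 - 1)) •
          (EuclideanSpace.proj (𝕜 := ℝ) (i0 hn) : E n →L[ℝ] ℝ)) x := by
      have h7 : HasFDerivAt (fun y : E n => 4 + y (i0 hn))
          (EuclideanSpace.proj (𝕜 := ℝ) (i0 hn) : E n →L[ℝ] ℝ) x :=
        (EuclideanSpace.proj (𝕜 := ℝ) (i0 hn) : E n →L[ℝ] ℝ).hasFDerivAt.const_add 4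
      exact h7.rpow_const (Or.inl (by rw [hx1]; norm_num))
    have hd2 := hd.congr_of_eventuallyEq hev
    refine ⟨?_, hd2.differentiableAt, ?_⟩
    · rw [hfr]
      simp only [mem_sphere_iff_norm, sub_zero]
      linarith
    · intro h8
      have h9 : fderiv ℝ (ff (aa hn M) (cc n M)) x = 0 := by
        have h10 := grad_norm (ff (aa hn M) (cc n M)) x
        rw [h8, norm_zero] at h10
        exact norm_eq_zero.mp h10.symm
      rw [hd2.fderiv] at h9
      have h11 := congrArg (fun T : E n →L[ℝ] ℝ => T (EuclideanSpace.single (i0 hn) 1)) h9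
      rw [hx1] at h11
      simp at h11
      linarith
  · -- the threshold
    unfold lamStar
    have hmem : lam < lambda1 (Metric.ball (0 : E n) 3) (aa hn M) (fun _ => 1) ∧
        level (Metric.ball (0 : E n) 3) (aa hn M) (fun _ => 1) (cc n M) lam <
          kappa (Metric.ball (0 : E n) 3) (aa hn M) (cc n M) := by
      refine ⟨?_, ?_⟩
      · refine hlam0.trans_le ?_
        unfold lambda1
        refine Real.sInf_nonneg ?_
        rintro r ⟨u, G, _, _, rfl⟩
        refine div_nonneg (setIntegral_nonneg Metric.isOpen_ball.measurableSet fun x hx => ?_)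
          (setIntegral_nonneg Metric.isOpen_ball.measurableSet fun x hx => by positivity)
        refine mul_nonneg (mul_nonneg (by positivity) ?_) (by positivity)
        linarith [hpos x (Metric.ball_subset_closedBall hx)]
      · refine hlev.trans_le ?_
        unfold kappa
        have h1 : 1 ≤ sInf (ff (aa hn M) (cc n M) '' closure (Metric.ball (0 : E n) 3)) := by
          refine le_csInf ⟨_, mem_image_of_mem _ (hcl ▸ hzm)⟩ ?_
          rintro _ ⟨x, hx, rfl⟩
          rw [hcl] at hx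
          rw [ff_eq hn hM (by linarith [hpos x hx])]
          exact Real.one_le_rpow (hpos x hx) (by positivity)
        nlinarith
    refine (sInf_le ?_).trans (EReal.coe_le_coe_iff.mpr hlamL)
    exact ⟨lam, hmem, rfl⟩

end Pool.Agent.Results.MP_6822f0_an.InteriorGroundState
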